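import Mathlib

/-!
A connected bipartite graph with all degrees on the larger side equal to three whose maximum
nullity is strictly smaller than its zero forcing number.

The graph has the seven points of the Fano plane on one side and nine copies of each of the seven
lines on the other side, adjacency being incidence.
-/

namespace Pool.Agent.Results.MP_cfc379_co.FanoCounterexample

open Matrix

/-- The set `S(G)`: real symmetric matrices whose off-diagonal zero pattern is that of `G`,
the diagonal being free. -/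
def patternMatrices {V : Type*} (G : SimpleGraph V) : Set (Matrix V V ℝ) :=
  {A | A.IsSymm ∧ ∀ i j, i ≠ j → (A i j ≠ 0 ↔ G.Adj i j)}

/-- Maximum nullity `M(G)`. -/
noncomputable def maxNullity {V : Type*} [Fintype V] (G : SimpleGraph V) : ℕ :=
  sSup {k | ∃ A ∈ patternMatrices G, k = Module.finrank ℝ (LinearMap.ker A.mulVecLin)}

/-- `Reach G B F`: the set `F` of filled vertices can be reached from the initially filled set `B`
by repeatedly applying the colour change rule: a filled vertex `u` having exactly one unfilled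
neighbour `w` fills `w`. -/
inductive Reach {V : Type*} [DecidableEq V] (G : SimpleGraph V) (B : Finset V) : Finset V → Prop
  | start : Reach G B B
  | step {F : Finset V} {u w : V} : Reach G B F → u ∈ F → w ∉ F → G.Adj u w →
      (∀ x, G.Adj u x → x ∉ F → x = w) → Reach G B (insert w F)

/-- Zero forcing number `Z(G)`. -/
noncomputable def zeroForcingNumber {V : Type*} [Fintype V] [DecidableEq V]
    (G : SimpleGraph V) : ℕ :=
  sInf {k | ∃ B : Finset V, Reach G B Finset.univ ∧ k = B.card}

/-! ### General lemmas -/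

section general

set_option linter.unusedSectionVars false

variable {V : Type*} [Fintype V] [DecidableEq V]

/-- If kernel vectors vanishing on `S` vanish, the nullity is at most `|S|`. -/
lemma finrank_ker_le {F : Type*} [Field F] (A : Matrix V V F) (S : Finset V)
    (h : ∀ x : V → F, A *ᵥ x = 0 → (∀ v ∈ S, x v = 0) → x = 0) :
    Module.finrank F (LinearMap.ker A.mulVecLin) ≤ S.card := by
  let f : LinearMap.ker A.mulVecLin →ₗ[F] (S → F) :=
    { toFun := fun x v => x.1 v.1
      map_add' := fun _ _ => rfl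
      map_smul' := fun _ _ => rfl }
  have hf : Function.Injective f := by
    rw [← LinearMap.ker_eq_bot, LinearMap.ker_eq_bot']
    intro x hx
    apply Subtype.ext
    apply h x.1
    · have := x.2
      rwa [LinearMap.mem_ker, Matrix.mulVecLin_apply] at this
    · intro v hv
      exact congrFun hx ⟨v, hv⟩
  have := LinearMap.finrank_le_finrank_of_injective hf
  simpa using this

lemma vanish_of_reach {F : Type*} [Field F] {G : SimpleGraph V} {A : Matrix V V F}
    (hA : ∀ i j, i ≠ j → (A i j ≠ 0 ↔ G.Adj i j)) {B T : Finset V} (hr : Reach G B T)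
    {x : V → F} (hx : A *ᵥ x = 0) (hB : ∀ v ∈ B, x v = 0) : ∀ v ∈ T, x v = 0 := by
  induction hr with
  | start => exact hB
  | @step F' u w _ hu hw huw hun ih =>
    intro v hv
    rcases Finset.mem_insert.1 hv with rfl | hv
    · have hrow : ∑ j, A u j * x j = 0 := congrFun hx u
      rw [Finset.sum_eq_single v] at hrow
      · have hne : A u v ≠ 0 := (hA u v huw.ne).2 huw
        exact (mul_eq_zero.1 hrow).resolve_left hne
      · intro j _ hj
        by_cases hjF : j ∈ F'
        · rw [ih j hjF, mul_zero]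
        · have huj : u ≠ j := fun h => hjF (h ▸ hu)
          have : ¬ G.Adj u j := fun h => hj (hun j h hjF)
          have : A u j = 0 := by
            by_contra h0
            exact this ((hA u j huj).1 h0)
          rw [this, zero_mul]
      · intro h; exact absurd (Finset.mem_univ _) h
    · exact ih v hv

/-- Nullity over any field is a lower bound for the zero forcing number. -/
lemma nullity_le_zeroForcing {F : Type*} [Field F] {G : SimpleGraph V} {A : Matrix V V F}
    (hA : ∀ i j, i ≠ j → (A i j ≠ 0 ↔ G.Adj i j)) :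
    Module.finrank F (LinearMap.ker A.mulVecLin) ≤ zeroForcingNumber G := by
  have hne : {k | ∃ B : Finset V, Reach G B Finset.univ ∧ k = B.card}.Nonempty :=
    ⟨_, Finset.univ, Reach.start, rfl⟩
  obtain ⟨B, hB, hk⟩ := Nat.sInf_mem hne
  have : zeroForcingNumber G = B.card := hk
  rw [this]
  apply finrank_ker_le
  intro x hx hxB
  funext v
  exact vanish_of_reach hA hB hx hxB v (Finset.mem_univ v)

lemma maxNullity_le {G : SimpleGraph V} {m : ℕ}
    (h : ∀ A ∈ patternMatrices G, Module.finrank ℝ (LinearMap.ker A.mulVecLin) ≤ m) :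
    maxNullity G ≤ m := by
  classical
  have hne : {k | ∃ A ∈ patternMatrices G,
      k = Module.finrank ℝ (LinearMap.ker A.mulVecLin)}.Nonempty := by
    refine ⟨_, Matrix.of fun i j => if G.Adj i j then 1 else 0, ⟨?_, ?_⟩, rfl⟩
    · ext i j
      simp [Matrix.transpose_apply, G.adj_comm]
    · intro i j _
      simp
  apply csSup_le hne
  rintro k ⟨A, hA, rfl⟩
  exact h A hA

end general

/-! ### The Fano plane -/

/-- Point `p` lies on line `k = {k, k+1, k+3}` (indices modulo seven). -/
def onLine (p k : Fin 7) : Prop := p = k ∨ p = k + 1 ∨ p = k + 3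

instance (p k : Fin 7) : Decidable (onLine p k) := by unfold onLine; infer_instance

/-- expanding the row sums -/
lemma fano_rows (B : Fin 7 → Fin 7 → ℝ) (hB : ∀ k p, B k p ≠ 0 ↔ onLine p k) (y : Fin 7 → ℝ)
    (hy : ∀ k, ∑ p, B k p * y p = 0) :
    (B 0 0 * y 0 + B 0 1 * y 1 + B 0 3 * y 3 = 0) ∧
    (B 1 1 * y 1 + B 1 2 * y 2 + B 1 4 * y 4 = 0) ∧
    (B 2 2 * y 2 + B 2 3 * y 3 + B 2 5 * y 5 = 0) ∧
    (B 3 3 * y 3 + B 3 4 * y 4 + B 3 6 * y 6 = 0) ∧
    (B 4 0 * y 0 + B 4 4 * y 4 + B 4 5 * y 5 = 0) ∧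
    (B 5 1 * y 1 + B 5 5 * y 5 + B 5 6 * y 6 = 0) ∧
    (B 6 0 * y 0 + B 6 2 * y 2 + B 6 6 * y 6 = 0) := by
  have hz : ∀ k p, ¬ onLine p k → B k p = 0 := fun k p h => by
    by_contra h0
    exact h ((hB k p).1 h0)
  have h0 := hy 0
  have h1 := hy 1
  have h2 := hy 2
  have h3 := hy 3
  have h4 := hy 4
  have h5 := hy 5
  have h6 := hy 6
  rw [Fin.sum_univ_seven] at h0 h1 h2 h3 h4 h5 h6
  rw [hz 0 2 (by decide), hz 0 4 (by decide), hz 0 5 (by decide), hz 0 6 (by decide)] at h0
  rw [hz 1 0 (by decide), hz 1 3 (by decide), hz 1 5 (by decide), hz 1 6 (by decide)] at h1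
  rw [hz 2 0 (by decide), hz 2 1 (by decide), hz 2 4 (by decide), hz 2 6 (by decide)] at h2
  rw [hz 3 0 (by decide), hz 3 1 (by decide), hz 3 2 (by decide), hz 3 5 (by decide)] at h3
  rw [hz 4 1 (by decide), hz 4 2 (by decide), hz 4 3 (by decide), hz 4 6 (by decide)] at h4
  rw [hz 5 0 (by decide), hz 5 2 (by decide), hz 5 3 (by decide), hz 5 4 (by decide)] at h5
  rw [hz 6 1 (by decide), hz 6 3 (by decide), hz 6 4 (by decide), hz 6 5 (by decide)] at h6
  refine ⟨?_, ?_, ?_, ?_, ?_, ?_, ?_⟩ <;> linarith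

/-- from `a x + b y = 0`, with `a ≠ 0` and `b ≠ 0`, we get `x ≠ 0 → y ≠ 0` -/
lemma nz_of {a b x y : ℝ} (h : a * x + b * y = 0) (ha : a ≠ 0) (hx : x ≠ 0) : y ≠ 0 := by
  rintro rfl
  rw [mul_zero, add_zero] at h
  exact (mul_ne_zero ha hx) h

lemma zero_of {a b c x y z : ℝ} (h : a * x + b * y + c * z = 0) (hx : x = 0) (hy : y = 0)
    (hc : c ≠ 0) : z = 0 := by
  subst hx; subst hy
  simp only [mul_zero, zero_add] at h
  exact (mul_eq_zero.1 h).resolve_left hc

lemma fano_three (B : Fin 7 → Fin 7 → ℝ) (hB : ∀ k p, B k p ≠ 0 ↔ onLine p k) (y : Fin 7 → ℝ)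
    (hy : ∀ k, ∑ p, B k p * y p = 0) (h0 : y 0 = 0) (h1 : y 1 = 0) (h2 : y 2 = 0) : y = 0 := by
  obtain ⟨r0, r1, r2, r3, r4, r5, r6⟩ := fano_rows B hB y hy
  have h3 : y 3 = 0 := zero_of r0 h0 h1 ((hB 0 3).2 (by decide))
  have h4 : y 4 = 0 := zero_of r1 h1 h2 ((hB 1 4).2 (by decide))
  have h5 : y 5 = 0 := zero_of r2 h2 h3 ((hB 2 5).2 (by decide))
  have h6 : y 6 = 0 := zero_of r3 h3 h4 ((hB 3 6).2 (by decide))
  funext i
  fin_cases i <;> simpa using by assumption

/-- The Fano pattern over `ℝ` has a kernel killed by two coordinates. -/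
lemma fano_two (B : Fin 7 → Fin 7 → ℝ) (hB : ∀ k p, B k p ≠ 0 ↔ onLine p k) :
    ∃ i j : Fin 7, ∀ y : Fin 7 → ℝ, (∀ k, ∑ p, B k p * y p = 0) → y i = 0 → y j = 0 →
      y = 0 := by
  by_contra hcon
  push Not at hcon
  obtain ⟨y, hy, y1, y2, yne⟩ := hcon 1 2
  obtain ⟨z, hz, z0, z2, zne⟩ := hcon 0 2
  obtain ⟨w, hw, w0, w1, wne⟩ := hcon 0 1
  have y0 : y 0 ≠ 0 := fun h => yne (fano_three B hB y hy h y1 y2)
  have z1 : z 1 ≠ 0 := fun h => zne (fano_three B hB z hz z0 h z2)
  have w2 : w 2 ≠ 0 := fun h => wne (fano_three B hB w hw w0 w1 h)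
  obtain ⟨ry0, ry1, ry2, ry3, ry4, ry5, ry6⟩ := fano_rows B hB y hy
  obtain ⟨rz0, rz1, rz2, rz3, rz4, rz5, rz6⟩ := fano_rows B hB z hz
  obtain ⟨rw0, rw1, rw2, rw3, rw4, rw5, rw6⟩ := fano_rows B hB w hw
  have b00 := (hB 0 0).2 (by decide)
  have b01 := (hB 0 1).2 (by decide)
  have b03 := (hB 0 3).2 (by decide)
  have b11 := (hB 1 1).2 (by decide)
  have b12 := (hB 1 2).2 (by decide)
  have b14 := (hB 1 4).2 (by decide)
  have b22 := (hB 2 2).2 (by decide)
  have b23 := (hB 2 3).2 (by decide)
  have b25 := (hB 2 5).2 (by decide)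
  have b33 := (hB 3 3).2 (by decide)
  have b34 := (hB 3 4).2 (by decide)
  have b36 := (hB 3 6).2 (by decide)
  have b40 := (hB 4 0).2 (by decide)
  have b44 := (hB 4 4).2 (by decide)
  have b45 := (hB 4 5).2 (by decide)
  have b51 := (hB 5 1).2 (by decide)
  have b55 := (hB 5 5).2 (by decide)
  have b56 := (hB 5 6).2 (by decide)
  have b60 := (hB 6 0).2 (by decide)
  have b62 := (hB 6 2).2 (by decide)
  have b66 := (hB 6 6).2 (by decide)
  -- vector y : zeros at 1, 2, 4
  have y4 : y 4 = 0 := zero_of ry1 y1 y2 b14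
  have z6 : z 6 = 0 := zero_of rz6 z0 z2 b66
  have w3 : w 3 = 0 := zero_of rw0 w0 w1 b03
  rw [y1] at ry0 ry5
  rw [y2] at ry2 ry6
  rw [y4] at ry3 ry4
  rw [z0] at rz0 rz4
  rw [z2] at rz1 rz2
  rw [z6] at rz3 rz5
  rw [w0] at rw4 rw6
  rw [w1] at rw1 rw5
  rw [w3] at rw2 rw3
  have y3 : y 3 ≠ 0 := nz_of (a := B 0 0) (b := B 0 3) (x := y 0) (by linarith) b00 y0
  have y5 : y 5 ≠ 0 := nz_of (a := B 2 3) (b := B 2 5) (x := y 3) (by linarith) b23 y3
  have y6 : y 6 ≠ 0 := nz_of (a := B 3 3) (b := B 3 6) (x := y 3) (by linarith) b33 y3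
  have z3 : z 3 ≠ 0 := nz_of (a := B 0 1) (b := B 0 3) (x := z 1) (by linarith) b01 z1
  have z4 : z 4 ≠ 0 := nz_of (a := B 1 1) (b := B 1 4) (x := z 1) (by linarith) b11 z1
  have z5 : z 5 ≠ 0 := nz_of (a := B 2 3) (b := B 2 5) (x := z 3) (by linarith) b23 z3
  have w4 : w 4 ≠ 0 := nz_of (a := B 1 2) (b := B 1 4) (x := w 2) (by linarith) b12 w2
  have w5 : w 5 ≠ 0 := nz_of (a := B 2 2) (b := B 2 5) (x := w 2) (by linarith) b22 w2
  have w6 : w 6 ≠ 0 := nz_of (a := B 3 4) (b := B 3 6) (x := w 4) (by linarith) b34 w4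
  -- ratios
  have e1 : y 5 * z 3 = y 3 * z 5 := by
    apply mul_left_cancel₀ (mul_ne_zero b23 b25)
    linear_combination (B 2 3 * z 3) * ry2 - (B 2 3 * y 3) * rz2
  have e2 : z 4 * w 5 = w 4 * z 5 := by
    apply mul_left_cancel₀ (mul_ne_zero b44 b45)
    linear_combination (B 4 5 * w 5) * rz4 - (B 4 5 * z 5) * rw4
  have e3 : y 5 * w 6 = w 5 * y 6 := by
    apply mul_left_cancel₀ (mul_ne_zero b55 b56)
    linear_combination (B 5 6 * w 6) * ry5 - (B 5 6 * y 6) * rw5
  have e4 : z 3 * w 4 * y 6 + y 3 * w 6 * z 4 = 0 := by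
    apply mul_left_cancel₀ b33
    have h1 : B 3 3 * y 3 = - (B 3 6 * y 6) := by linarith
    have h2 : B 3 3 * z 3 = - (B 3 4 * z 4) := by linarith
    have h3 : B 3 4 * w 4 + B 3 6 * w 6 = 0 := by linarith
    linear_combination (w 4 * y 6) * h2 + (w 6 * z 4) * h1 - (z 4 * y 6) * h3
  -- contradiction
  have e5 : y 3 * z 5 * w 4 * w 6 * 2 = 0 := by
    linear_combination (w 5) * e4 + (z 3 * w 4) * e3 - (w 4 * w 6) * e1 - (y 3 * w 6) * e2
  have : y 3 * z 5 * w 4 * w 6 * 2 ≠ 0 := by positivity
  exact this e5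

/-- Seven points against nine copies of each of the seven lines of the Fano plane: the vertex
`inl (k, i)` is the `i`-th copy of line `k`, the vertex `inr p` is the point `p`. -/
def fanoGraph : SimpleGraph ((Fin 7 × Fin 9) ⊕ Fin 7) where
  Adj
    | Sum.inl a, Sum.inr p => onLine p a.1
    | Sum.inr p, Sum.inl a => onLine p a.1
    | _, _ => False
  symm := ⟨by
    rintro (a | p) (b | q) h
    · exact h
    · exact h
    · exact h
    · exact h⟩
  loopless := ⟨by
    rintro (a | p) h
    · exact h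
    · exact h⟩

instance : DecidableRel fanoGraph.Adj := by
  rintro (a | p) (b | q) <;> simp only [fanoGraph] <;> infer_instance

@[simp] lemma adj_lr (a : Fin 7 × Fin 9) (p : Fin 7) :
    fanoGraph.Adj (Sum.inl a) (Sum.inr p) ↔ onLine p a.1 := Iff.rfl

@[simp] lemma adj_rl (a : Fin 7 × Fin 9) (p : Fin 7) :
    fanoGraph.Adj (Sum.inr p) (Sum.inl a) ↔ onLine p a.1 := Iff.rfl

@[simp] lemma adj_ll (a b : Fin 7 × Fin 9) :
    ¬ fanoGraph.Adj (Sum.inl a) (Sum.inl b) := id

@[simp] lemma adj_rr (p q : Fin 7) :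
    ¬ fanoGraph.Adj (Sum.inr p) (Sum.inr q) := id

/-! ### Real symmetric matrices of the Fano graph have nullity at most 61 -/

lemma card_le_real (A : Matrix ((Fin 7 × Fin 9) ⊕ Fin 7) ((Fin 7 × Fin 9) ⊕ Fin 7) ℝ)
    (hA : A ∈ patternMatrices fanoGraph) :
    Module.finrank ℝ (LinearMap.ker A.mulVecLin) ≤ 61 := by
  obtain ⟨-, hA⟩ := hA
  -- off-diagonal entries
  have hll : ∀ a b : Fin 7 × Fin 9, a ≠ b → A (Sum.inl a) (Sum.inl b) = 0 := by
    intro a b hab
    by_contra h
    exact adj_ll a b ((hA _ _ (by simpa using hab)).1 h)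
  have hlr : ∀ (a : Fin 7 × Fin 9) (p : Fin 7),
      A (Sum.inl a) (Sum.inr p) ≠ 0 ↔ onLine p a.1 := by
    intro a p
    exact hA _ _ (by simp)
  have hrl : ∀ (a : Fin 7 × Fin 9) (p : Fin 7),
      A (Sum.inr p) (Sum.inl a) ≠ 0 ↔ onLine p a.1 := by
    intro a p
    exact hA _ _ (by simp)
  -- the equation at a line vertex
  have rowL : ∀ x : (Fin 7 × Fin 9) ⊕ Fin 7 → ℝ, A *ᵥ x = 0 → ∀ a : Fin 7 × Fin 9,
      A (Sum.inl a) (Sum.inl a) * x (Sum.inl a)
        + ∑ p, A (Sum.inl a) (Sum.inr p) * x (Sum.inr p) = 0 := by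
    intro x hx a
    have h : ∑ v, A (Sum.inl a) v * x v = 0 := congrFun hx (Sum.inl a)
    rw [Fintype.sum_sum_type] at h
    rw [Finset.sum_eq_single a] at h
    · exact h
    · intro b _ hb
      rw [hll a b hb.symm, zero_mul]
    · intro h; exact absurd (Finset.mem_univ _) h
  by_cases hcase : ∃ k : Fin 7, ∀ i : Fin 9, A (Sum.inl (k, i)) (Sum.inl (k, i)) ≠ 0
  · -- nine independent columns
    obtain ⟨k, hk⟩ := hcase
    have key := finrank_ker_le A
      (Finset.univ \ (Finset.univ.image fun i : Fin 9 => (Sum.inl (k, i) : (Fin 7 × Fin 9) ⊕ Fin 7)))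
      (by
        intro x hx hS
        have hp : ∀ p : Fin 7, x (Sum.inr p) = 0 := fun p => hS _ (by simp)
        funext v
        by_cases hv : v ∈ (Finset.univ.image
            fun i : Fin 9 => (Sum.inl (k, i) : (Fin 7 × Fin 9) ⊕ Fin 7))
        · obtain ⟨i, -, rfl⟩ := Finset.mem_image.1 hv
          have := rowL x hx (k, i)
          simp only [hp, mul_zero, Finset.sum_const_zero, add_zero] at this
          exact (mul_eq_zero.1 this).resolve_left (hk i)
        · exact hS v (by simpa using hv))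
    refine key.trans ?_
    rw [Finset.card_sdiff_of_subset (Finset.subset_univ _), Finset.card_image_of_injective]
    · simp
    · intro i j hij
      simpa using hij
  · push Not at hcase
    choose c hc using hcase
    obtain ⟨i, j, hij⟩ := fano_two (fun k p => A (Sum.inl (k, c k)) (Sum.inr p))
      (fun k p => hlr (k, c k) p)
    -- the chosen copies
    have key := finrank_ker_le A
      ((Finset.univ \ ((Finset.univ.image fun k : Fin 7 =>
          (Sum.inl (k, c k) : (Fin 7 × Fin 9) ⊕ Fin 7)) ∪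
          (Finset.univ.image fun p : Fin 7 => (Sum.inr p : (Fin 7 × Fin 9) ⊕ Fin 7)))) ∪
        {Sum.inr i, Sum.inr j, Sum.inl (0, c 0), Sum.inl (1, c 1), Sum.inl (2, c 2)})
      (by
        intro x hx hS
        -- coordinates outside the chosen ones vanish
        have hout : ∀ a : Fin 7 × Fin 9, a.2 ≠ c a.1 → x (Sum.inl a) = 0 := by
          intro a ha
          apply hS
          apply Finset.mem_union_left
          simp only [Finset.mem_sdiff, Finset.mem_univ, Finset.mem_union, Finset.mem_image,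
            true_and, Sum.inl.injEq, reduceCtorEq, exists_false, or_false, not_exists]
          rintro k rfl
          exact ha rfl
        -- the point part vanishes
        have hy : (fun p : Fin 7 => x (Sum.inr p)) = 0 := by
          apply hij
          · intro k
            have := rowL x hx (k, c k)
            rw [hc k, zero_mul, zero_add] at this
            exact this
          · exact hS _ (Finset.mem_union_right _ (by simp))
          · exact hS _ (Finset.mem_union_right _ (by simp))
        have hp : ∀ p : Fin 7, x (Sum.inr p) = 0 := fun p => congrFun hy p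
        -- the equations at the points
        have rowR : ∀ p : Fin 7,
            ∑ k, A (Sum.inr p) (Sum.inl (k, c k)) * x (Sum.inl (k, c k)) = 0 := by
          intro p
          have h : ∑ v, A (Sum.inr p) v * x v = 0 := congrFun hx (Sum.inr p)
          rw [Fintype.sum_sum_type] at h
          simp only [hp, mul_zero, Finset.sum_const_zero, add_zero] at h
          rw [Fintype.sum_prod_type] at h
          rw [← h]
          apply Finset.sum_congr rfl
          intro k _
          rw [Finset.sum_eq_single (c k)]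
          · intro b _ hb
            rw [hout (k, b) hb, mul_zero]
          · intro h; exact absurd (Finset.mem_univ _) h
        have u0 : x (Sum.inl (0, c 0)) = 0 := hS _ (Finset.mem_union_right _ (by simp))
        have u1 : x (Sum.inl (1, c 1)) = 0 := hS _ (Finset.mem_union_right _ (by simp))
        have u2 : x (Sum.inl (2, c 2)) = 0 := hS _ (Finset.mem_union_right _ (by simp))
        -- lines through point `p` are `p`, `p + 6`, `p + 4`
        have hz : ∀ (k p : Fin 7), ¬ onLine p k → A (Sum.inr p) (Sum.inl (k, c k)) = 0 := by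
          intro k p h
          by_contra h0
          exact h ((hrl (k, c k) p).1 h0)
        have r0 := rowR 0
        have r1 := rowR 1
        have r2 := rowR 2
        have r3 := rowR 3
        rw [Fin.sum_univ_seven] at r0 r1 r2 r3
        rw [hz 1 0 (by decide), hz 2 0 (by decide), hz 3 0 (by decide), hz 5 0 (by decide),
          u0] at r0
        rw [hz 2 1 (by decide), hz 3 1 (by decide), hz 4 1 (by decide), hz 6 1 (by decide),
          u0, u1] at r1
        rw [hz 0 2 (by decide), hz 3 2 (by decide), hz 4 2 (by decide), hz 5 2 (by decide),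
          u1, u2] at r2
        rw [hz 1 3 (by decide), hz 4 3 (by decide), hz 5 3 (by decide), hz 6 3 (by decide),
          u0, u2] at r3
        have u3 : x (Sum.inl (3, c 3)) = 0 := by
          have : A (Sum.inr 3) (Sum.inl (3, c 3)) ≠ 0 := (hrl (3, c 3) 3).2 (show onLine 3 3 by decide)
          refine (mul_eq_zero.1 ?_).resolve_left this
          linarith
        have u5 : x (Sum.inl (5, c 5)) = 0 := by
          have : A (Sum.inr 1) (Sum.inl (5, c 5)) ≠ 0 := (hrl (5, c 5) 1).2 (show onLine 1 5 by decide)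
          refine (mul_eq_zero.1 ?_).resolve_left this
          linarith
        have u6 : x (Sum.inl (6, c 6)) = 0 := by
          have : A (Sum.inr 2) (Sum.inl (6, c 6)) ≠ 0 := (hrl (6, c 6) 2).2 (show onLine 2 6 by decide)
          refine (mul_eq_zero.1 ?_).resolve_left this
          linarith
        have u4 : x (Sum.inl (4, c 4)) = 0 := by
          have : A (Sum.inr 0) (Sum.inl (4, c 4)) ≠ 0 := (hrl (4, c 4) 0).2 (show onLine 0 4 by decide)
          refine (mul_eq_zero.1 ?_).resolve_left this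
          rw [u6] at r0
          linarith
        funext v
        rcases v with ⟨k, b⟩ | p
        · by_cases hb : b = c k
          · subst hb
            fin_cases k
            · exact u0
            · exact u1
            · exact u2
            · exact u3
            · exact u4
            · exact u5
            · exact u6
          · exact hout (k, b) hb
        · exact hp p)
    refine key.trans ?_
    refine (Finset.card_union_le _ _).trans ?_
    have h1 : (Finset.univ \ ((Finset.univ.image fun k : Fin 7 =>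
          (Sum.inl (k, c k) : (Fin 7 × Fin 9) ⊕ Fin 7)) ∪
          (Finset.univ.image fun p : Fin 7 => (Sum.inr p : (Fin 7 × Fin 9) ⊕ Fin 7)))).card
        = 56 := by
      rw [Finset.card_sdiff_of_subset (Finset.subset_univ _), Finset.card_union_of_disjoint,
        Finset.card_image_of_injective, Finset.card_image_of_injective]
      · simp
      · intro p q hpq
        simpa using hpq
      · intro k l hkl
        simp only [Sum.inl.injEq, Prod.mk.injEq] at hkl
        exact hkl.1
      · rw [Finset.disjoint_left]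
        intro v hv hv'
        obtain ⟨k, -, rfl⟩ := Finset.mem_image.1 hv
        obtain ⟨p, -, hp⟩ := Finset.mem_image.1 hv'
        exact absurd hp (by simp)
    rw [h1]
    have h2 : ({Sum.inr i, Sum.inr j, Sum.inl (0, c 0), Sum.inl (1, c 1), Sum.inl (2, c 2)} :
        Finset ((Fin 7 × Fin 9) ⊕ Fin 7)).card ≤ 5 := Finset.card_le_five
    omega

/-! ### Over the field with two elements the nullity is at least 62 -/

/-- The adjacency matrix modulo two. -/
def A₂ : Matrix ((Fin 7 × Fin 9) ⊕ Fin 7) ((Fin 7 × Fin 9) ⊕ Fin 7) (ZMod 2) :=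
  Matrix.of fun i j => if fanoGraph.Adj i j then 1 else 0

lemma A₂_ll (a b : Fin 7 × Fin 9) : A₂ (Sum.inl a) (Sum.inl b) = 0 := by
  simp [A₂]

lemma A₂_rr (p q : Fin 7) : A₂ (Sum.inr p) (Sum.inr q) = 0 := by
  simp [A₂]

lemma A₂_lr (a : Fin 7 × Fin 9) (p : Fin 7) :
    A₂ (Sum.inl a) (Sum.inr p) = if onLine p a.1 then 1 else 0 := by
  simp [A₂]

lemma A₂_rl (a : Fin 7 × Fin 9) (p : Fin 7) :
    A₂ (Sum.inr p) (Sum.inl a) = if onLine p a.1 then 1 else 0 := by
  simp [A₂]

lemma A₂_mulVec_l (x : (Fin 7 × Fin 9) ⊕ Fin 7 → ZMod 2) (a : Fin 7 × Fin 9) :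
    (A₂ *ᵥ x) (Sum.inl a) = ∑ p, if onLine p a.1 then x (Sum.inr p) else 0 := by
  change ∑ v, A₂ (Sum.inl a) v * x v = _
  rw [Fintype.sum_sum_type]
  simp [A₂_ll, A₂_lr]

lemma A₂_mulVec_r (x : (Fin 7 × Fin 9) ⊕ Fin 7 → ZMod 2) (p : Fin 7) :
    (A₂ *ᵥ x) (Sum.inr p) = ∑ k, if onLine p k then ∑ i, x (Sum.inl (k, i)) else 0 := by
  change ∑ v, A₂ (Sum.inr p) v * x v = _
  rw [Fintype.sum_sum_type, Fintype.sum_prod_type]
  simp only [A₂_rr, A₂_rl, zero_mul, Finset.sum_const_zero, add_zero, ite_mul, one_mul]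
  apply Finset.sum_congr rfl
  intro k _
  split_ifs <;> simp

/-- The sum over a line. -/
lemma line_sum (y : Fin 7 → ZMod 2) (k : Fin 7) :
    (∑ p, if onLine p k then y p else 0) = y k + y (k + 1) + y (k + 3) := by
  have h1 : ∀ k : Fin 7, (Finset.univ.filter fun p => onLine p k) = {k, k + 1, k + 3} := by
    decide
  have h2 : ∀ k : Fin 7, k ∉ ({k + 1, k + 3} : Finset (Fin 7)) := by decide
  have h3 : ∀ k : Fin 7, k + 1 ≠ k + 3 := by decide
  rw [← Finset.sum_filter, h1, Finset.sum_insert (h2 k), Finset.sum_pair (h3 k), add_assoc]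

/-- The sum over the lines through a point. -/
lemma point_sum (s : Fin 7 → ZMod 2) (p : Fin 7) :
    (∑ k, if onLine p k then s k else 0) = s p + s (p + 6) + s (p + 4) := by
  have h1 : ∀ p : Fin 7, (Finset.univ.filter fun k => onLine p k) = {p, p + 6, p + 4} := by
    decide
  have h2 : ∀ p : Fin 7, p ∉ ({p + 6, p + 4} : Finset (Fin 7)) := by decide
  have h3 : ∀ p : Fin 7, p + 6 ≠ p + 4 := by decide
  rw [← Finset.sum_filter, h1, Finset.sum_insert (h2 p), Finset.sum_pair (h3 p), add_assoc]

/-- The eight selected vertices whose equations imply all the others modulo two. -/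
def sel : Fin 4 ⊕ Fin 4 → (Fin 7 × Fin 9) ⊕ Fin 7
  | Sum.inl k => Sum.inl (Fin.castLE (by omega) k, 0)
  | Sum.inr p => Sum.inr (Fin.castLE (by omega) p)

lemma ker_sel_le :
    LinearMap.ker (A₂.submatrix sel id).mulVecLin ≤ LinearMap.ker A₂.mulVecLin := by
  intro x hx
  rw [LinearMap.mem_ker, Matrix.mulVecLin_apply] at hx ⊢
  have two : (2 : ZMod 2) = 0 := by decide
  have hsel : ∀ v, (A₂ *ᵥ x) (sel v) = 0 := fun v => congrFun hx v
  -- the equations at the selected vertices
  set y : Fin 7 → ZMod 2 := fun p => x (Sum.inr p) with hy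
  set s : Fin 7 → ZMod 2 := fun k => ∑ i, x (Sum.inl (k, i)) with hs
  have eqL : ∀ a : Fin 7 × Fin 9, (A₂ *ᵥ x) (Sum.inl a) = y a.1 + y (a.1 + 1) + y (a.1 + 3) :=
    fun a => (A₂_mulVec_l x a).trans (line_sum y a.1)
  have eqR : ∀ p : Fin 7, (A₂ *ᵥ x) (Sum.inr p) = s p + s (p + 6) + s (p + 4) :=
    fun p => (A₂_mulVec_r x p).trans (point_sum s p)
  have hl0 : y 0 + y 1 + y 3 = 0 := (eqL (0, 0)).symm.trans (hsel (Sum.inl 0))
  have hl1 : y 1 + y 2 + y 4 = 0 := (eqL (1, 0)).symm.trans (hsel (Sum.inl 1))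
  have hl2 : y 2 + y 3 + y 5 = 0 := (eqL (2, 0)).symm.trans (hsel (Sum.inl 2))
  have hl3 : y 3 + y 4 + y 6 = 0 := (eqL (3, 0)).symm.trans (hsel (Sum.inl 3))
  have hr0 : s 0 + s 6 + s 4 = 0 := (eqR 0).symm.trans (hsel (Sum.inr 0))
  have hr1 : s 1 + s 0 + s 5 = 0 := (eqR 1).symm.trans (hsel (Sum.inr 1))
  have hr2 : s 2 + s 1 + s 6 = 0 := (eqR 2).symm.trans (hsel (Sum.inr 2))
  have hr3 : s 3 + s 2 + s 0 = 0 := (eqR 3).symm.trans (hsel (Sum.inr 3))
  funext v
  rcases v with ⟨k, i⟩ | p
  · rw [eqL]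
    have : ∀ k : Fin 7, y k + y (k + 1) + y (k + 3) = 0 := by
      intro k
      fin_cases k
      · exact hl0
      · exact hl1
      · exact hl2
      · exact hl3
      · change y 4 + y 5 + y 0 = 0
        linear_combination hl0 + hl1 + hl2 - (y 1 + y 2 + y 3) * two
      · change y 5 + y 6 + y 1 = 0
        linear_combination hl1 + hl2 + hl3 - (y 2 + y 3 + y 4) * two
      · change y 6 + y 0 + y 2 = 0
        linear_combination hl0 + hl1 + hl3 - (y 1 + y 3 + y 4) * two
    exact this k
  · rw [eqR]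
    have : ∀ p : Fin 7, s p + s (p + 6) + s (p + 4) = 0 := by
      intro p
      fin_cases p
      · exact hr0
      · exact hr1
      · exact hr2
      · exact hr3
      · change s 4 + s 3 + s 1 = 0
        linear_combination hr0 + hr2 + hr3 - (s 0 + s 2 + s 6) * two
      · change s 5 + s 4 + s 2 = 0
        linear_combination hr0 + hr1 + hr2 - (s 0 + s 1 + s 6) * two
      · change s 6 + s 5 + s 3 = 0
        linear_combination hr1 + hr2 + hr3 - (s 0 + s 1 + s 2) * two
    exact this p

lemma nullity_two : 62 ≤ Module.finrank (ZMod 2) (LinearMap.ker A₂.mulVecLin) := by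
  have h1 := Submodule.finrank_mono ker_sel_le
  have h2 := LinearMap.finrank_range_add_finrank_ker (A₂.submatrix sel id).mulVecLin
  have h3 : Module.finrank (ZMod 2) (LinearMap.range (A₂.submatrix sel id).mulVecLin) ≤ 8 := by
    refine (Submodule.finrank_le _).trans ?_
    simp
  have h4 : Module.finrank (ZMod 2) ((Fin 7 × Fin 9) ⊕ Fin 7 → ZMod 2) = 70 := by
    simp
  omega

/-! ### Relabelling the vertices -/

lemma nullity_submatrix {F V W : Type*} [Field F] [Fintype V] [DecidableEq V] [Fintype W]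
    [DecidableEq W] (A : Matrix W W F) (e : V ≃ W) :
    Module.finrank F (LinearMap.ker (A.submatrix e e).mulVecLin)
      = Module.finrank F (LinearMap.ker A.mulVecLin) := by
  have h1 := LinearMap.finrank_range_add_finrank_ker (A.submatrix e e).mulVecLin
  have h2 := LinearMap.finrank_range_add_finrank_ker A.mulVecLin
  have h3 : Module.finrank F (LinearMap.range (A.submatrix e e).mulVecLin)
      = Module.finrank F (LinearMap.range A.mulVecLin) := Matrix.rank_submatrix A e e
  have h4 : Module.finrank F (V → F) = Module.finrank F (W → F) := by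
    simp [Fintype.card_congr e]
  omega

/-- Seventy labelled vertices. -/
def lab : Fin 70 ≃ (Fin 7 × Fin 9) ⊕ Fin 7 :=
  (finSumFinEquiv (m := 63) (n := 7)).symm.trans
    (Equiv.sumCongr (finProdFinEquiv (m := 7) (n := 9)).symm (Equiv.refl _))

lemma connected : fanoGraph.Connected := by
  rw [SimpleGraph.connected_iff_exists_forall_reachable]
  have step : ∀ p : Fin 7, fanoGraph.Reachable (Sum.inr p) (Sum.inr (p + 1)) := by
    intro p
    have h1 : fanoGraph.Adj (Sum.inr p) (Sum.inl (p, 0)) := Or.inl rfl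
    have h2 : fanoGraph.Adj (Sum.inl (p, 0)) (Sum.inr (p + 1)) := Or.inr (Or.inl rfl)
    exact h1.reachable.trans h2.reachable
  have r0 : fanoGraph.Reachable (Sum.inr 0) (Sum.inr 0) := SimpleGraph.Reachable.refl _
  have r1 : fanoGraph.Reachable (Sum.inr 0) (Sum.inr 1) := r0.trans (step 0)
  have r2 : fanoGraph.Reachable (Sum.inr 0) (Sum.inr 2) := r1.trans (step 1)
  have r3 : fanoGraph.Reachable (Sum.inr 0) (Sum.inr 3) := r2.trans (step 2)
  have r4 : fanoGraph.Reachable (Sum.inr 0) (Sum.inr 4) := r3.trans (step 3)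
  have r5 : fanoGraph.Reachable (Sum.inr 0) (Sum.inr 5) := r4.trans (step 4)
  have r6 : fanoGraph.Reachable (Sum.inr 0) (Sum.inr 6) := r5.trans (step 5)
  have hp : ∀ p : Fin 7, fanoGraph.Reachable (Sum.inr 0) (Sum.inr p) := by
    intro p
    fin_cases p
    · exact r0
    · exact r1
    · exact r2
    · exact r3
    · exact r4
    · exact r5
    · exact r6
  refine ⟨Sum.inr 0, ?_⟩
  rintro (a | p)
  · have h : fanoGraph.Adj (Sum.inr a.1) (Sum.inl a) := Or.inl rfl
    exact (hp a.1).trans h.reachable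
  · exact hp p

/-- There is a connected bipartite graph with parts `X`, `Y`, `|X| ≥ |Y|`, every vertex of `X` of
degree three, and `M(G) < Z(G)`. -/
theorem result :
    ∃ (n : ℕ) (G : SimpleGraph (Fin n)) (X Y : Finset (Fin n)),
      G.Connected ∧ Disjoint X Y ∧ X ∪ Y = Finset.univ ∧
      (∀ u v, G.Adj u v → (u ∈ X ∧ v ∈ Y) ∨ (u ∈ Y ∧ v ∈ X)) ∧
      Y.card ≤ X.card ∧ (∀ x ∈ X, (G.neighborSet x).ncard = 3) ∧
      maxNullity G < zeroForcingNumber G := by
  have hX : Function.Injective fun a : Fin 7 × Fin 9 => lab.symm (Sum.inl a) := fun a b h =>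
    Sum.inl_injective (lab.symm.injective h)
  have hY : Function.Injective fun p : Fin 7 => lab.symm (Sum.inr p) := fun a b h =>
    Sum.inr_injective (lab.symm.injective h)
  refine ⟨70, fanoGraph.comap lab, Finset.univ.map ⟨_, hX⟩, Finset.univ.map ⟨_, hY⟩,
    ?_, ?_, ?_, ?_, ?_, ?_, ?_⟩
  · exact (SimpleGraph.Iso.comap lab fanoGraph).connected_iff.2 connected
  · rw [Finset.disjoint_left]
    intro v hv hv'
    simp only [Finset.mem_map, Finset.mem_univ, true_and, Function.Embedding.coeFn_mk] at hv hv'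
    obtain ⟨a, rfl⟩ := hv
    obtain ⟨p, hp⟩ := hv'
    have := lab.symm.injective hp
    exact absurd this (by simp)
  · ext v
    simp only [Finset.mem_union, Finset.mem_map, Finset.mem_univ, true_and,
      Function.Embedding.coeFn_mk, iff_true]
    rcases h : lab v with a | p
    · left
      exact ⟨a, by rw [← h, Equiv.symm_apply_apply]⟩
    · right
      exact ⟨p, by rw [← h, Equiv.symm_apply_apply]⟩
  · intro u v huv
    rw [SimpleGraph.comap_adj] at huv
    simp only [Finset.mem_map, Finset.mem_univ, true_and, Function.Embedding.coeFn_mk]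
    rcases hu : lab u with a | p <;> rcases hv : lab v with b | q
    · rw [hu, hv] at huv
      exact absurd huv (adj_ll a b)
    · left
      exact ⟨⟨a, by rw [← hu, Equiv.symm_apply_apply]⟩, ⟨q, by rw [← hv, Equiv.symm_apply_apply]⟩⟩
    · right
      exact ⟨⟨p, by rw [← hu, Equiv.symm_apply_apply]⟩, ⟨b, by rw [← hv, Equiv.symm_apply_apply]⟩⟩
    · rw [hu, hv] at huv
      exact absurd huv (adj_rr p q)
  · simp
  · intro x hx
    simp only [Finset.mem_map, Finset.mem_univ, true_and, Function.Embedding.coeFn_mk] at hx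
    obtain ⟨a, rfl⟩ := hx
    have hset : (fanoGraph.comap lab).neighborSet (lab.symm (Sum.inl a))
        = {lab.symm (Sum.inr a.1), lab.symm (Sum.inr (a.1 + 1)), lab.symm (Sum.inr (a.1 + 3))} := by
      ext v
      rw [SimpleGraph.mem_neighborSet, SimpleGraph.comap_adj, Equiv.apply_symm_apply]
      simp only [Set.mem_insert_iff, Set.mem_singleton_iff, Equiv.eq_symm_apply]
      rcases hv : lab v with b | q
      · constructor
        · intro h; exact absurd h (adj_ll a b)
        · intro h; simp at h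
      · rw [adj_lr]
        simp [onLine]
    rw [hset]
    rw [Set.ncard_eq_three]
    have d1 : ∀ k : Fin 7, k ≠ k + 1 := by decide
    have d2 : ∀ k : Fin 7, k ≠ k + 3 := by decide
    have d3 : ∀ k : Fin 7, k + 1 ≠ k + 3 := by decide
    exact ⟨_, _, _, fun h => d1 a.1 (hY h), fun h => d2 a.1 (hY h), fun h => d3 a.1 (hY h), rfl⟩
  · have hM : maxNullity (fanoGraph.comap lab) ≤ 61 := by
      apply maxNullity_le
      rintro A ⟨hsym, hA⟩
      have hmem : A.submatrix lab.symm lab.symm ∈ patternMatrices fanoGraph := by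
        refine ⟨?_, ?_⟩
        · exact hsym.submatrix _
        · intro i j hij
          rw [Matrix.submatrix_apply]
          rw [hA _ _ (fun h => hij (lab.symm.injective h)), SimpleGraph.comap_adj,
            Equiv.apply_symm_apply, Equiv.apply_symm_apply]
      rw [← nullity_submatrix A lab.symm]
      exact card_le_real _ hmem
    have hZ : 62 ≤ zeroForcingNumber (fanoGraph.comap lab) := by
      refine nullity_two.trans ?_
      rw [← nullity_submatrix A₂ lab]
      apply nullity_le_zeroForcing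
      intro i j _
      rw [Matrix.submatrix_apply, SimpleGraph.comap_adj]
      simp [A₂]
    omega

end Pool.Agent.Results.MP_cfc379_co.FanoCounterexample
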